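import Pool.Agent.MP_ca0a54_nt.H29.Spec

/-!
A majorant with bounded mean for the exponential of the logarithmic derivative.
-/

open Complex MeasureTheory Filter Topology

namespace Pool.Agent.MP_ca0a54_nt.H14

open Pool.Agent.MP_ca0a54_nt.L0 Pool.Agent.MP_ca0a54_nt.H24 Pool.Agent.MP_ca0a54_nt.H29

namespace PMAJ

theorem dp_cont (a : ℕ → ℂ) (M : ℕ) (y : ℝ) : Continuous fun x : ℝ => dp a M (x - y * I) := by
  unfold dp ds np
  fun_prop

theorem dp_le {a : ℕ → ℂ} {B y : ℝ} (M : ℕ) (x : ℝ) (hB : 0 ≤ B) (hy : 0 ≤ y)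
    (ha : ∀ n, ‖a n‖ ≤ B * ArithmeticFunction.vonMangoldt n) :
    ‖dp a M (x - y * I)‖ ≤ B * (M : ℝ) ^ 2 := by
  unfold dp ds
  refine (norm_sum_le _ _).trans ((Finset.sum_le_card_nsmul _ _ (B * M) fun n hn => ?_).trans
    (le_of_eq ?_))
  swap
  · simp only [Nat.card_Icc, add_tsub_cancel_right, nsmul_eq_mul]
    ring
  have h0 := Real.log_natCast_nonneg n
  have h1 : ‖np (1 / 2 + I * (x - y * I)) n‖ ≤ 1 := by
    rw [np, norm_exp, re_mul_ofReal, Real.exp_le_one_iff]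
    simp only [neg_re, add_re, mul_re, I_re, I_im, sub_re, sub_im, ofReal_re, ofReal_im, mul_im,
      one_div, inv_re, re_ofNat, normSq_ofNat]
    nlinarith
  have h2 : ArithmeticFunction.vonMangoldt n ≤ M :=
    ArithmeticFunction.vonMangoldt_le_log.trans ((Real.log_le_self (Nat.cast_nonneg n)).trans
      (Nat.cast_le.2 (Finset.mem_Icc.1 hn).2))
  rw [norm_mul]
  exact (mul_le_of_le_one_right (norm_nonneg _) h1).trans
    ((ha n).trans (mul_le_mul_of_nonneg_left h2 hB))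

/-- The logarithmic derivative in the box, from the bounds at the height `32 k / L`. -/
theorem point (hC : CmpStmt) {C T Λ D x : ℝ} {U : Finset ℝ} {m : ℝ → ℕ} {k : ℕ} {w : ℂ}
    (hZ : Zs C T U m) (h1 : 1 ≤ C) (hΛ : 1 ≤ Λ) (hT : 1 ≤ T) (hL : 2 * Λ ≤ Real.log T)
    (hk : 1 ≤ k) (hD : 0 ≤ D) (hx : |x - 3 * T / 2| ≤ T / 20)
    (f1 : Fs U m x (4 / (Real.log T / (8 * k))) ≤ D * Real.log T)
    (f2 : ‖rs U m (x - (4 / (Real.log T / (8 * k)) : ℝ) * I)‖ ≤ D * Real.log T)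
    (w1 : |w.re - x| ≤ Λ / Real.log T) (w2 : 1 / (Λ * Real.log T) ≤ -w.im)
    (w3 : -w.im ≤ Λ / Real.log T) :
    Λ * ‖ld w‖ / Real.log T ≤ Λ * (71 * Λ ^ 3 * D + 2 * C) * k := by
  obtain ⟨κ, k1, -, k2⟩ := hZ.loc x hx
  set L := Real.log T with hLT
  have L0 : 0 < L := by linarith
  have k0 : (1 : ℝ) ≤ k := by exact_mod_cast hk
  have ey : 4 / (L / (8 * k)) = 32 * k / L := by field_simp; ring
  rw [ey] at f1 f2
  set y : ℝ := 32 * k / L with hy
  have y0 : 0 < y := by positivity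
  have v0 : 0 < -w.im := lt_of_lt_of_le (by positivity) w2
  have n1 : ‖w - x‖ ≤ 1 := by
    refine (norm_le_abs_re_add_abs_im _).trans ?_
    rw [sub_re, sub_im, ofReal_re, ofReal_im, sub_zero, abs_of_neg (neg_pos.1 v0)]
    refine (add_le_add w1 w3).trans ?_
    rw [← add_div, div_le_one L0]
    linarith
  have n2 : ‖w - (x - y * I)‖ ≤ (2 * Λ + 32 * k) / L := by
    refine (norm_le_abs_re_add_abs_im _).trans ?_
    have e1 : (w - (x - y * I)).re = w.re - x := by simp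
    have e2 : (w - (x - y * I)).im = w.im + y := by simp
    rw [e1, e2]
    have : |w.im + y| ≤ Λ / L + y := abs_le.2 ⟨by linarith, by linarith⟩
    calc _ ≤ Λ / L + (Λ / L + y) := add_le_add w1 this
      _ = _ := by rw [hy]; ring
  have n3 := k2 w (n1.trans (Real.one_le_sqrt.2 hT)) (neg_pos.1 v0)
  have n4 : C * L / T * ‖w - x‖ ≤ C * L :=
    (mul_le_of_le_one_right (by positivity) n1).trans (div_le_self (by positivity) hT)
  have n5 := (hC U m x y y0).2 w (neg_pos.1 v0)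
  have F0 : 0 ≤ Fs U m x y := Finset.sum_nonneg fun u _ => by positivity
  have a1 : ‖w - (x - y * I)‖ / y ≤ 2 * Λ := by
    rw [div_le_iff₀ y0]
    refine n2.trans ?_
    rw [hy, ← mul_div_assoc]
    gcongr
    nlinarith
  have a2 : 1 + ‖w - (x - y * I)‖ / (-w.im) ≤ 35 * Λ ^ 2 * k := by
    have b1 : ‖w - (x - y * I)‖ / (-w.im) ≤ (2 * Λ + 32 * k) / L / (1 / (Λ * L)) := by gcongr
    have b2 : (2 * Λ + 32 * k) / L / (1 / (Λ * L)) = (2 * Λ + 32 * k) * Λ := by field_simp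
    have b3 : Λ ^ 2 ≤ Λ ^ 2 * k := le_mul_of_one_le_right (by positivity) k0
    have b4 : Λ * k ≤ Λ ^ 2 * k := by gcongr; nlinarith
    nlinarith
  have a3 : ‖rs U m w - rs U m (x - y * I)‖ ≤ 2 * Λ * (35 * Λ ^ 2 * k) * (D * L) := by
    refine n5.trans ?_
    calc _ = ‖w - (x - y * I)‖ / y * (1 + ‖w - (x - y * I)‖ / (-w.im)) * Fs U m x y := by ring
      _ ≤ _ := by gcongr
  have a4 : ‖ld w‖ ≤ ‖ld w - rs U m w - κ‖ + ‖rs U m w - rs U m (x - y * I)‖ +
      ‖rs U m (x - y * I)‖ + ‖κ‖ := by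
    refine le_trans (le_of_eq ?_) norm_add₄_le
    congr 1
    ring
  have a5 : D * L ≤ Λ ^ 3 * k * (D * L) := le_mul_of_one_le_left (by positivity)
    (one_le_mul_of_one_le_of_one_le (one_le_pow₀ hΛ) k0)
  have a6 : C * L ≤ C * L * k := le_mul_of_one_le_right (by positivity) k0
  rw [mul_div_assoc, mul_assoc]
  refine mul_le_mul_of_nonneg_left ?_ (by linarith)
  rw [div_le_iff₀ L0]
  nlinarith

/-- The mean of one term. -/
theorem mean {K L B y T : ℝ} {k M : ℕ} {a : ℕ → ℂ} (hK : 0 < K) (hL : 0 < L) (hk : 1 ≤ k)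
    (hB : 0 ≤ B) (hT : 0 ≤ T) (hM : 1 ≤ M) (hM' : (M : ℝ) ≤ Real.exp (4 * (L / (8 * k))))
    (h : ∫ t in T..(2 * T), ‖dp a M (t - y * I)‖ ^ (2 * k) ≤
      (2 * T - T) * (40 * k * B ^ 2 * Real.log M ^ 2) ^ k +
        K * (B * k * Real.log M) ^ (2 * k) * (M : ℝ) ^ k * (1 + k * Real.log M)) :
    ∫ t in T..(2 * T), (‖dp a M (t - y * I)‖ / L) ^ (2 * k) ≤
      T * ((10 * B ^ 2) ^ k / k.factorial) + K * B ^ (2 * k) * Real.exp (L / 2) * (1 + L) := by
  have k0 : (0 : ℝ) < k := by exact_mod_cast hk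
  have M0 : (0 : ℝ) < M := by exact_mod_cast hM
  have l0 := Real.log_natCast_nonneg M
  have l1 : k * Real.log M ≤ L / 2 := by
    have := (Real.log_le_iff_le_exp M0).2 hM'
    calc k * Real.log M ≤ k * (4 * (L / (8 * k))) := by gcongr
      _ = L / 2 := by field_simp; ring
  have l2 : (M : ℝ) ^ k ≤ Real.exp (L / 2) := by
    rw [← Real.exp_log M0, ← Real.exp_nat_mul]
    exact Real.exp_le_exp.2 l1
  have a1 : (40 * k * B ^ 2 * Real.log M ^ 2) ^ k ≤
      (10 * B ^ 2) ^ k / k.factorial * L ^ (2 * k) := by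
    have b1 : 40 * k * B ^ 2 * Real.log M ^ 2 ≤ 10 * B ^ 2 / k * L ^ 2 := by
      rw [div_mul_eq_mul_div, le_div_iff₀ k0]
      have : (k * Real.log M) ^ 2 ≤ (L / 2) ^ 2 := by gcongr
      nlinarith [mul_le_mul_of_nonneg_left this (sq_nonneg B)]
    refine (pow_le_pow_left₀ (by positivity) b1 k).trans ?_
    rw [mul_pow, ← pow_mul, div_pow]
    gcongr
    exact_mod_cast k.factorial_le_pow
  have a2 : (B * k * Real.log M) ^ (2 * k) ≤ B ^ (2 * k) * L ^ (2 * k) := by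
    rw [← mul_pow, mul_assoc]
    gcongr
    linarith
  simp only [div_pow]
  rw [intervalIntegral.integral_div, div_le_iff₀ (by positivity)]
  refine h.trans ?_
  rw [add_mul, show 2 * T - T = T by ring, mul_assoc T]
  refine add_le_add (mul_le_mul_of_nonneg_left a1 hT) ?_
  calc _ ≤ K * (B ^ (2 * k) * L ^ (2 * k)) * Real.exp (L / 2) * (1 + L) := by
        gcongr
        linarith
    _ = _ := by ring

theorem sums {C₁ B K₀ L : ℝ} {K : ℕ} (h1 : 0 ≤ C₁) (hB : 1 ≤ B) (hK₀ : 0 < K₀) (hL : 0 ≤ L)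
    (hK : (C₁ + 2 * B + 1) * K ≤ L / 8) :
    ∑ k ∈ Finset.Ico 1 K, Real.exp (C₁ * (k + 1)) *
      (Real.exp L * ((10 * B ^ 2) ^ k / k.factorial) +
        K₀ * B ^ (2 * k) * Real.exp (L / 2) * (1 + L)) ≤
      (Real.exp C₁ * Real.exp (Real.exp C₁ * (10 * B ^ 2)) + 8 * K₀) * Real.exp L := by
  simp only [mul_add]
  rw [Finset.sum_add_distrib, add_mul]
  refine add_le_add ?_ ?_
  · have h2 := Real.sum_le_exp_of_nonneg (x := Real.exp C₁ * (10 * B ^ 2)) (by positivity) K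
    calc _ = ∑ k ∈ Finset.Ico 1 K, Real.exp C₁ * Real.exp L *
          ((Real.exp C₁ * (10 * B ^ 2)) ^ k / k.factorial) := by
          refine Finset.sum_congr rfl fun k _ => ?_
          rw [Real.exp_add, mul_one, mul_comm C₁, Real.exp_nat_mul, mul_pow (Real.exp C₁)]
          ring
      _ ≤ ∑ k ∈ Finset.range K, Real.exp C₁ * Real.exp L *
          ((Real.exp C₁ * (10 * B ^ 2)) ^ k / k.factorial) :=
          Finset.sum_le_sum_of_subset_of_nonneg
            (fun k hk => Finset.mem_range.2 (Finset.mem_Ico.1 hk).2) fun k _ _ => by positivity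
      _ ≤ _ := by
          rw [← Finset.mul_sum, mul_right_comm]
          gcongr
  · simp only [← mul_add]
    have b1 : 1 + L ≤ 8 * Real.exp (L / 8) := by linarith [Real.add_one_le_exp (L / 8)]
    have b2 : (K : ℝ) ≤ Real.exp K := by linarith [Real.add_one_le_exp (K : ℝ)]
    have b3 : B ≤ Real.exp B := by linarith [Real.add_one_le_exp B]
    refine (Finset.sum_le_card_nsmul _ _ (Real.exp (C₁ * K) *
      (K₀ * Real.exp B ^ (2 * K) * Real.exp (L / 2) * (8 * Real.exp (L / 8))))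
      fun k hk => ?_).trans ?_
    · have hk' := (Finset.mem_Ico.1 hk).2
      have : (k : ℝ) + 1 ≤ K := by exact_mod_cast hk'
      gcongr
      exact (pow_le_pow_left₀ (by linarith) b3 _).trans
        (pow_le_pow_right₀ (hB.trans b3) (by omega))
    · rw [Nat.card_Ico, nsmul_eq_mul]
      have b4 : ((K - 1 : ℕ) : ℝ) ≤ Real.exp K := le_trans (Nat.cast_le.2 (by omega)) b2
      calc _ ≤ Real.exp K * (Real.exp (C₁ * K) *
            (K₀ * Real.exp B ^ (2 * K) * Real.exp (L / 2) * (8 * Real.exp (L / 8)))) := by gcongr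
        _ = 8 * K₀ * Real.exp ((C₁ + 2 * B + 1) * K + L / 2 + L / 8) := by
            rw [← Real.exp_nat_mul, Real.exp_add, Real.exp_add, add_mul, add_mul, Real.exp_add,
              Real.exp_add, one_mul, show ((2 * K : ℕ) : ℝ) * B = 2 * B * K by push_cast; ring]
            ring
        _ ≤ _ := by
            gcongr
            linarith

end PMAJ

open PMAJ in
theorem maj (hC : CmpStmt) (hM : MomStmt) (hS : SelStmt) : MajStmt := by
  intro C Λ h1 hΛ
  obtain ⟨K₀, hK₀, hM⟩ := hM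
  obtain ⟨C₂, h2, hS⟩ := hS C h1
  obtain ⟨C₁, hC₁⟩ : ∃ C₁, C₁ = Λ * (71 * Λ ^ 3 * (2 + C₂) + 2 * C) := ⟨_, rfl⟩
  have c1 : 0 ≤ C₁ := by rw [hC₁]; positivity
  obtain ⟨B, hB⟩ : ∃ B, B = 8 * (C₁ + 2 * C₂ + 1) + 128 := ⟨_, rfl⟩
  have B0 : 128 ≤ B := by rw [hB]; linarith
  refine ⟨Real.exp C₁ + (Real.exp C₁ * Real.exp (Real.exp C₁ * (10 * C₂ ^ 2)) + 8 * K₀),
    le_add_of_le_of_nonneg (Real.one_le_exp c1) (by positivity), ?_⟩
  filter_upwards [hS, eventually_ge_atTop (1 : ℝ),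
    Real.tendsto_log_atTop.eventually_ge_atTop (2 * Λ),
    Real.tendsto_log_atTop.eventually_ge_atTop (2 * B),
    Real.tendsto_log_atTop.eventually_ge_atTop (C₂ * Real.exp B ^ 2)] with T hS hT l1 l2 l3
  set L := Real.log T with hL
  have L0 : 0 < L := by linarith
  obtain ⟨K, hK⟩ : ∃ K : ℕ, K = ⌊L / B⌋₊ := ⟨_, rfl⟩
  have k1 : K * B ≤ L := by
    rw [← le_div_iff₀ (by linarith), hK]
    exact Nat.floor_le (by positivity)
  have k2 : L ≤ 2 * B * K := by
    have := Nat.lt_floor_add_one (L / B)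
    rw [← hK, div_lt_iff₀ (by linarith)] at this
    nlinarith
  have k3 : 1 ≤ K := by
    rcases K.eq_zero_or_pos with rfl | h
    · simp at k2; linarith
    · exact h
  have x1 : ∀ k : ℕ, 1 ≤ k → k ≤ K → 16 ≤ L / (8 * k) ∧ L / (8 * k) ≤ L / 8 := fun k a b => by
    have a' : (1 : ℝ) ≤ k := by exact_mod_cast a
    have b' : (k : ℝ) ≤ K := by exact_mod_cast b
    refine ⟨?_, by gcongr; linarith⟩
    rw [le_div_iff₀ (by linarith)]
    nlinarith
  choose! χ hχ hχ' using fun (k : ℕ) (h : 1 ≤ k ∧ k ≤ K) => hS _ (x1 k h.1 h.2).1 (x1 k h.1 h.2).2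
  let D : ℕ → ℝ → ℝ := fun k x => ‖dp (fun n => (ArithmeticFunction.vonMangoldt n : ℝ) * χ k n)
    ⌊Real.exp (4 * (L / (8 * k)))⌋₊ (x - (4 / (L / (8 * k)) : ℝ) * I)‖
  have ha : ∀ k, 1 ≤ k ∧ k ≤ K → ∀ n, ‖((ArithmeticFunction.vonMangoldt n : ℝ) : ℂ) * χ k n‖ ≤
      C₂ * ArithmeticFunction.vonMangoldt n := fun k hk n => by
    rw [norm_mul, norm_real, Real.norm_of_nonneg ArithmeticFunction.vonMangoldt_nonneg, mul_comm]
    exact mul_le_mul_of_nonneg_right (hχ k hk n) ArithmeticFunction.vonMangoldt_nonneg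
  have Dc : ∀ k : ℕ, Continuous fun x => Real.exp (C₁ * (k + 1)) * (D k x / L) ^ (2 * k) := fun k =>
    continuous_const.mul (((dp_cont _ _ _).norm.div_const L).pow _)
  have D0 : ∀ (k : ℕ) x, 0 ≤ Real.exp (C₁ * (k + 1)) * (D k x / L) ^ (2 * k) := fun k x => by
    have : 0 ≤ D k x := norm_nonneg _
    positivity
  refine ⟨fun x => Real.exp C₁ +
    ∑ k ∈ Finset.Ico 1 K, Real.exp (C₁ * (k + 1)) * (D k x / L) ^ (2 * k),
    continuous_const.add (continuous_finsetSum _ fun k _ => Dc k), fun x =>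
    le_add_of_le_of_nonneg (Real.one_le_exp c1) (Finset.sum_nonneg fun k _ => D0 k x), ?_,
    fun U m hZ x hx w w1 w2 w3 => ?_⟩
  · rw [intervalIntegral.integral_add (continuous_const.intervalIntegrable _ _)
      ((continuous_finsetSum _ fun k _ => Dc k).intervalIntegrable _ _),
      intervalIntegral.integral_const,
      intervalIntegral.integral_finsetSum fun k _ => (Dc k).intervalIntegrable _ _, add_mul,
      show 2 * T - T = T by ring, smul_eq_mul, mul_comm T]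
    refine add_le_add le_rfl (le_trans (Finset.sum_le_sum fun k hk => ?_)
      ((sums (K := K) c1 h2 hK₀ L0.le (by nlinarith)).trans
        (by rw [hL, Real.exp_log (by linarith)])))
    have hk1 := (Finset.mem_Ico.1 hk).1
    have hk2 := (Finset.mem_Ico.1 hk).2.le
    have x2 := (x1 k hk1 hk2).1
    have M3 : 3 ≤ ⌊Real.exp (4 * (L / (8 * k)))⌋₊ := Nat.le_floor (by
      have := Real.add_one_le_exp (4 * (L / (8 * k)))
      push_cast
      linarith)
    rw [intervalIntegral.integral_const_mul, hL, Real.exp_log (by linarith), ← hL]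
    exact mul_le_mul_of_nonneg_left (mean hK₀ L0 hk1 (by linarith) (by linarith) (by omega)
      (Nat.floor_le (Real.exp_pos _).le) (hM k _ _ C₂ _ T (2 * T) hk1 M3 (by linarith)
        (by positivity) (by linarith) (ha k ⟨hk1, hk2⟩))) (Real.exp_pos _).le
  · have hK' : 1 ≤ K ∧ D K x ≤ L := by
      refine ⟨k3, (dp_le _ x (by linarith) (by positivity) (ha K ⟨k3, le_rfl⟩)).trans
        (le_trans ?_ l3)⟩
      have K0 : (0 : ℝ) < K := by exact_mod_cast k3
      gcongr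
      refine (Nat.floor_le (Real.exp_pos _).le).trans (Real.exp_le_exp.2 ?_)
      rw [← mul_div_assoc, div_le_iff₀ (by positivity)]
      nlinarith
    have ex : ∃ k, 1 ≤ k ∧ D k x ≤ L := ⟨K, hK'⟩
    classical
    have s1 := Nat.find_spec ex
    have s2 := Nat.find_min' ex hK'
    have s3 := fun j => Nat.find_min ex (m := j)
    generalize Nat.find ex = k at s1 s2 s3
    obtain ⟨f1, f2⟩ := hχ' k ⟨s1.1, s2⟩ U m hZ x hx
    have s4 := s1.2
    have p := point hC (D := 2 + C₂) hZ h1 hΛ hT l1 s1.1 (by linarith) hx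
      (f1.trans (by change 2 * D k x + C₂ * L ≤ (2 + C₂) * L; linarith))
      (f2.trans (by change 2 * D k x + C₂ * L ≤ (2 + C₂) * L; linarith)) w1 w2 w3
    rw [← hC₁] at p
    refine (Real.exp_le_exp.2 p).trans ?_
    obtain ⟨j, rfl⟩ : ∃ j, k = j + 1 := ⟨k - 1, by omega⟩
    rcases j.eq_zero_or_pos with rfl | hj
    · simpa using Finset.sum_nonneg fun k _ => D0 k x
    · have s5 : L ≤ D j x := (not_le.1 fun h => s3 j (by omega) ⟨hj, h⟩).le
      refine le_add_of_nonneg_of_le (Real.exp_pos _).le (le_trans ?_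
        (Finset.single_le_sum (fun k _ => D0 k x) (Finset.mem_Ico.2 ⟨hj, s2⟩)))
      push_cast
      exact le_mul_of_one_le_right (Real.exp_pos _).le (one_le_pow₀ ((one_le_div L0).2 s5))

end Pool.Agent.MP_ca0a54_nt.H14
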